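import Mathlib
import Pool.Agent.H.MP_c30670_an.B

set_option autoImplicit false

open MeasureTheory

namespace Pool.Agent.Results.MP_c30670_an.One

theorem result :
    ⨅ (b : SchauderBasis ℝ (Lp ℝ 1 (volume : Measure ℝ))) (_ : ∀ n, ∀ᵐ x, 0 ≤ b n x),
      b.enormProjBound = 1 := by
  refine le_antisymm (ENNReal.le_of_forall_pos_le_add fun ε p _ => ?_) (le_iInf₂ fun b _ => ?_)
  · obtain ⟨b, q, r⟩ := H.MP_c30670_an.main (θ := min (ε / 2) (1 / 2)) (by positivity) (min_le_right _ _)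
    refine iInf₂_le_of_le b q (iSup_le fun m => ?_)
    rw [← ofReal_norm_eq_enorm]
    refine (ENNReal.ofReal_le_ofReal (q := 1 + ε)
      ((r m).trans (by linarith [min_le_left (ε / 2 : ℝ) (1 / 2)]))).trans_eq ?_
    rw [ENNReal.ofReal_add zero_le_one ε.coe_nonneg, ENNReal.ofReal_one, ENNReal.ofReal_coe_nnreal]
  refine le_trans ?_ (b.enorm_proj_le_enormProjBound 1)
  have := (b.proj 1).le_opNorm (b 0)
  rw [b.proj_apply_basis_mem, if_pos one_pos, le_mul_iff_one_le_left
    (norm_pos_iff.2 (b.linearIndependent.ne_zero 0))] at this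
  rw [← ofReal_norm_eq_enorm]
  exact ENNReal.one_le_ofReal.2 this

end Pool.Agent.Results.MP_c30670_an.One
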